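import Pool.Agent.H.MP_dfd7ce_an.B

open Filter Topology Set Complex MeasureTheory

namespace Pool.Agent.Results.MP_dfd7ce_an.NotOpen

/-- Hardy space of the bidisk, by Taylor coefficients -/
noncomputable abbrev H2 : Type := lp (fun _ : ℕ × ℕ => ℂ) 2

noncomputable def ev (f : H2) (z : ℂ × ℂ) : ℂ := ∑' i : ℕ × ℕ, f i * z.1 ^ i.1 * z.2 ^ i.2

def D2 : Set (ℂ × ℂ) := {z | ‖z.1‖ < 1 ∧ ‖z.2‖ < 1}

def RIF (θ : ℂ × ℂ → ℂ) : Prop :=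
  (∃ p q : MvPolynomial (Fin 2) ℂ, ∀ z ∈ D2, MvPolynomial.eval ![z.1, z.2] q ≠ 0 ∧
    θ z = MvPolynomial.eval ![z.1, z.2] p / MvPolynomial.eval ![z.1, z.2] q) ∧
  ∀ᵐ t : ℝ × ℝ, ∃ L : ℂ, ‖L‖ = 1 ∧
    Tendsto (fun r : ℝ => θ (r * exp (t.1 * I), r * exp (t.2 * I))) (𝓝[<] 1) (𝓝 L)

/-- `g = u f` as functions on the bidisk -/
def IsMul (u : ℂ × ℂ → ℂ) (f g : H2) : Prop := ∀ z ∈ D2, ev g z = u z * ev f z

section
variable {E : Type} [NormedAddCommGroup E] [InnerProductSpace ℂ E]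

def Perp (f g : E) : Prop := inner ℂ f g = 0

def Agler (M : Set E) (X Y : E → E) (S₁ S₂ : Submodule ℂ E) : Prop :=
  IsClosed (S₁ : Set E) ∧ IsClosed (S₂ : Set E) ∧ (∀ f ∈ S₁, ∀ g ∈ S₂, Perp f g) ∧
    (∀ g, g ∈ M ↔ ∃ a ∈ S₁, ∃ b ∈ S₂, g = a + b) ∧ (∀ f ∈ S₁, X f ∈ S₁) ∧ ∀ f ∈ S₂, Y f ∈ S₂

/-- numerical range of the compression of `X` to `S` -/
def W (X : E → E) (S : Submodule ℂ E) : Set ℂ := {w | ∃ f ∈ S, ‖f‖ = 1 ∧ w = inner ℂ f (X f)}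

def Bad (M : Set E) (X Y : E → E) : Prop :=
  ∃ S₁ S₂ : Submodule ℂ E, Agler M X Y S₁ S₂ ∧ ¬ IsOpen (W X S₂)
end

/-- the model space -/
def Mod (θ : ℂ × ℂ → ℂ) : Set H2 := {g | ∀ h f, IsMul θ h f → Perp f g}

theorem result : ∃ (θ : ℂ × ℂ → ℂ) (X Y : H2 → H2),
    RIF θ ∧ (¬ ∃ u v : ℂ → ℂ, ∀ z ∈ D2, θ z = u z.1 * v z.2) ∧
    (∀ f, IsMul Prod.fst f (X f)) ∧ (∀ f, IsMul Prod.snd f (Y f)) ∧ Bad (Mod θ) X Y := by
  open H.MP_dfd7ce_an in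
  refine ⟨fun z => pn z / pd z, X, Y, ⟨⟨?_, ?_, fun z hz => ?_⟩,
    ae_of_all _ fun t => ?_⟩, ?_, fun f z hz => ?_, fun f z hz => ?_, K X Y ⊓ (F X Y A)ᗮ, F X Y A,
    ⟨?_, F_closed, fun f hf g hg => ?_, fun g => ?_, fun f hf => dc.S1X hf, fun f hf => dc.FY hf⟩,
    dc.not_open (x := lp.single 2 (0, 0) 1) ?_ ?_⟩
  · exact .X 0 ^ 2 * .X 1 + .C ε * (1 + .X 0 + .X 0 ^ 2)
  · exact 1 + .C ε * (.X 1 * (1 + .X 0 + .X 0 ^ 2))
  · have := pd_ne hz.1.le hz.2.le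
    exact ⟨by simpa [pd] using this, by simp [pn, pd]⟩
  · have h1 := norm_exp_ofReal_mul_I t.1
    have h2 := norm_exp_ofReal_mul_I t.2
    refine ⟨_, uni h1 h2, ?_⟩
    have hc : ContinuousAt (fun z => pn z / pd z) (exp (t.1 * I), exp (t.2 * I)) :=
      ContinuousAt.div (by unfold pn; fun_prop) (by unfold pd; fun_prop) (pd_ne h1.le h2.le)
    refine hc.tendsto.comp ?_
    have : Continuous fun r : ℝ => ((r : ℂ) * exp (t.1 * I), (r : ℂ) * exp (t.2 * I)) := by fun_prop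
    simpa using (this.tendsto 1).mono_left nhdsWithin_le_nhds
  · rintro ⟨u, v, h⟩
    have a := h (0, 0) (by simp [D2])
    have b := h (1 / 2, 0) (by norm_num [D2])
    have c := h (0, 1 / 2) (by norm_num [D2])
    have d := h (1 / 2, 1 / 2) (by norm_num [D2])
    have e : pn (1 / 2, 1 / 2) / pd (1 / 2, 1 / 2) * (pn (0, 0) / pd (0, 0)) =
        pn (1 / 2, 0) / pd (1 / 2, 0) * (pn (0, 1 / 2) / pd (0, 1 / 2)) := by
      simp only at a b c d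
      rw [a, b, c, d]; ring
    norm_num [pn, pd, ε] at e
  · exact (ev_k hz.1 hz.2 _).trans ((k_X hz.1 hz.2 f).trans (by rw [← ev_k hz.1 hz.2]; rfl))
  · exact (ev_k hz.1 hz.2 _).trans ((k_Y hz.1 hz.2 f).trans (by rw [← ev_k hz.1 hz.2]; rfl))
  · exact (Submodule.isClosed_orthogonal _).inter (Submodule.isClosed_orthogonal _)
  · exact (Submodule.mem_orthogonal' _ _).1 hf.2 g hg
  · have e : g ∈ Mod (fun z => pn z / pd z) ↔ g ∈ K X Y := by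
      rw [mem_K]
      refine ⟨fun h u => ?_, fun h a f hf => ?_⟩
      · obtain ⟨a, ha⟩ := (mul_iff _).2 ⟨u, rfl⟩
        exact h a _ fun z hz => ha z hz.1 hz.2
      · obtain ⟨u, rfl⟩ := (mul_iff f).1 ⟨a, fun z h1 h2 => hf z ⟨h1, h2⟩⟩
        exact h u
    rw [e]
    conv_lhs => rw [← DC.sup_eq dc, Submodule.mem_sup]
    simp only [eq_comm]
  · ext ⟨i, j⟩; simp [A_ap, lp.single_apply]
  · intro h
    have := congrArg (fun f : H2 => f (0, 0)) h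
    simp at this

end Pool.Agent.Results.MP_dfd7ce_an.NotOpen
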